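import Pool.Agent.CRT.Final

/-!
# Combinatorially regular normal convex tilings of Euclidean space (MP_c8d3bb_co)

Positive answer to Q1 in every dimension: every combinatorially regular normal LFC tiling of `𝔼^d`
is isomorphic to a regular tiling of `𝔼^d`.

Idea of the proof (details in `Pool/Agent/CRT/`).  The flags of the tiling are the maximal simplices
of its barycentric subdivision, a locally finite simplicial decomposition of `𝔼^d`.  Combinatorial
regularity makes the orders of the products of two adjacency operations constant, `M_ij`, and simple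
connectivity of `𝔼^d` (a developing map along generic segments) identifies the flags with the
Coxeter group `W` of `M`, whose diagram is a string and all of whose proper parabolic subgroups are
finite.  Normality gives polynomial growth of `W` (volume), and if the Coxeter form were
nondegenerate it would be Lorentzian and `W` would contain a free semigroup (ping-pong).  So the form
is degenerate and `W` is an affine reflection group of `𝔼^d` with a simplex as fundamental domain
(Tits' theorem); the Voronoi tiling of the orbit of the last vertex is a regular tiling with the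
same flags and adjacencies.
-/

namespace Pool.Agent.Results.MP_c8d3bb_co.NormalTilings

/-- Euclidean `d`-space `𝔼^d`. -/
abbrev Sp (d : ℕ) : Type := EuclideanSpace ℝ (Fin d)

/-- A convex `d`-polytope in `𝔼^d`: the convex hull of a finite set, with nonempty interior. -/
def IsTile {d : ℕ} (P : Set (Sp d)) : Prop :=
  (∃ s : Finset (Sp d), P = convexHull ℝ (s : Set (Sp d))) ∧ (interior P).Nonempty

/-- **LFC tilings** of `𝔼^d`: a family `T` of convex `d`-polytopes covering `𝔼^d`, with pairwise
disjoint interiors, face-to-face (the intersection of two tiles is empty or a face of each: `IsExposed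
ℝ P F` says that `F` is empty or the set of maximisers on `P` of a continuous linear functional)
and locally finite (every compact set meets only finitely many tiles). -/
structure IsTiling {d : ℕ} (T : Set (Set (Sp d))) : Prop where
  tile : ∀ P ∈ T, IsTile P
  cover : ⋃₀ T = Set.univ
  disj : ∀ P ∈ T, ∀ Q ∈ T, P ≠ Q → Disjoint (interior P) (interior Q)
  faceToFace : ∀ P ∈ T, ∀ Q ∈ T, IsExposed ℝ P (P ∩ Q)
  locallyFinite : ∀ K : Set (Sp d), IsCompact K → {P ∈ T | (P ∩ K).Nonempty}.Finite

/-- The **face poset** of a tiling: all faces of all tiles, the empty set and the whole space,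
ordered by inclusion (the order of the subtype `↥(faces T)`). -/
def faces {d : ℕ} (T : Set (Set (Sp d))) : Set (Set (Sp d)) :=
  {F | F = ∅ ∨ F = Set.univ ∨ ∃ P ∈ T, IsExposed ℝ P F}

/-- A **flag**: a maximal chain in the face poset. -/
def IsFlag {d : ℕ} {T : Set (Set (Sp d))} (c : Set (faces T)) : Prop :=
  IsMaxChain (· ≤ ·) c

/-- **Combinatorially regular**: the automorphism group of the face poset is transitive on flags. -/
def CombRegular {d : ℕ} (T : Set (Set (Sp d))) : Prop :=
  ∀ c c' : Set (faces T), IsFlag c → IsFlag c' → ∃ e : faces T ≃o faces T, e '' c = c'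

/-- **Regular**: the symmetry group of the tiling (the isometries of `𝔼^d` mapping the family of
tiles to itself) is transitive on flags. -/
def Regular {d : ℕ} (T : Set (Set (Sp d))) : Prop :=
  ∀ c c' : Set (faces T), IsFlag c → IsFlag c' →
    ∃ g : Sp d ≃ᵢ Sp d, (fun P => g '' P) '' T = T ∧
      (fun F : Set (Sp d) => g '' F) '' (Subtype.val '' c) = Subtype.val '' c'

/-- **Normal**: there are `r, R > 0` such that every tile contains a ball of radius `r` and is
contained in a ball of radius `R`. -/
def Normal {d : ℕ} (T : Set (Set (Sp d))) : Prop :=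
  ∃ r R : ℝ, 0 < r ∧ 0 < R ∧ ∀ P ∈ T,
    (∃ x, Metric.ball x r ⊆ P) ∧ (∃ y, P ⊆ Metric.ball y R)

theorem toCRT {d : ℕ} {T : Set (Set (Sp d))} (hT : IsTiling T) : Pool.Agent.CRT.IsTiling T :=
  ⟨hT.tile, hT.cover, hT.disj, hT.faceToFace, hT.locallyFinite⟩

theorem ofCRT {d : ℕ} {T : Set (Set (Sp d))} (hT : Pool.Agent.CRT.IsTiling T) : IsTiling T :=
  ⟨hT.tile, hT.cover, hT.disj, hT.faceToFace, hT.locallyFinite⟩

/-- **Main theorem (positive answer to Q1 for every `d`).**  Every combinatorially regular normal
LFC tiling `T` of `𝔼^d` is isomorphic (as a face poset) to a regular LFC tiling `T'` of `𝔼^d`. -/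
theorem result (d : ℕ) (T : Set (Set (Sp d))) (hT : IsTiling T) (hN : Normal T)
    (hreg : CombRegular T) :
    ∃ T' : Set (Set (Sp d)), IsTiling T' ∧ Regular T' ∧ Nonempty (faces T ≃o faces T') := by
  obtain ⟨T', hT', hreg', e⟩ := Pool.Agent.CRT.main d T (toCRT hT) hN hreg
  exact ⟨T', ofCRT hT', hreg', e⟩

end Pool.Agent.Results.MP_c8d3bb_co.NormalTilings
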